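import Pool.Agent.Helper89K9.MC.Stm

/-!
# For given coins and earlier vectors, averaged over the next vector
-/

set_option autoImplicit false

namespace Pool.Agent.Helper89K9.MC

open Finset
open H746R3.Inv (LD)
open Pool.Agent.TH163.AC2 (Alg coord toM gm lenE rightE mavg matEquiv)
open Pool.Agent.H699R2.OMV (Prog Vec Mat IsProb before avg)

namespace OneL

lemma card_mat (n : ℕ) : (Fintype.card (Mat n) : ℝ) = 2 ^ (n * n) := by
  rw [← Fintype.card_congr (matEquiv (1 : (Mat n)ˣ) (fun _ => 1)), Fintype.card_fun,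
    Fintype.card_bool, Fintype.card_prod, Fintype.card_fin]
  push_cast
  rfl

lemma lam_pos {p : ℕ} (hp : 1 ≤ p) (d : ℕ) : 1 ≤ lam p d := by
  unfold lam
  apply one_le_pow₀
  have h1 : (1 : ℝ) ≤ p := by exact_mod_cast hp
  have h2 : (1 : ℝ) ≤ 2 ^ (p - 1) := one_le_pow₀ (by norm_num)
  nlinarith

open Classical in
/-- the matrices for which the answer is right and at most `τ` cells are probed -/
noncomputable def Rv {n w : ℕ} {Ω A : Type} (alg : Alg n Ω A w) (ω : Ω) (h : List (Vec n)) (τ : ℕ)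
    (v : Vec n) : Finset (Mat n) :=
  univ.filter fun M => alg.ans ω h M v = M.mulVec v ∧ (alg.adr ω h M v).length ≤ τ

open Classical in
lemma diff_ge {n w : ℕ} {Ω A : Type} (alg : Alg n Ω A w) (ω : Ω) (h : List (Vec n)) (τ : ℕ)
    (v : Vec n) : -((τ + 1 : ℝ) * (((Rv alg ω h τ v).card : ℝ) / 2 ^ (n * n))) ≤
      lenE alg ω h v - (τ + 1 : ℝ) * rightE alg ω h v := by
  unfold lenE rightE mavg
  rw [card_mat, ← mul_div_assoc, ← mul_div_assoc, ← sub_div, ← neg_div]
  apply div_le_div_of_nonneg_right _ (by positivity)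
  have h1 : ((Rv alg ω h τ v).card : ℝ) = ∑ M : Mat n,
      (if alg.ans ω h M v = M.mulVec v ∧ (alg.adr ω h M v).length ≤ τ then (1 : ℝ) else 0) := by
    unfold Rv
    rw [Finset.card_filter]
    push_cast
    rfl
  rw [h1, Finset.mul_sum, Finset.mul_sum, ← Finset.sum_sub_distrib, ← Finset.sum_neg_distrib]
  apply Finset.sum_le_sum
  intro M _
  have hτ : (0 : ℝ) ≤ τ := Nat.cast_nonneg τ
  have hl : (0 : ℝ) ≤ ((alg.adr ω h M v).length : ℝ) := Nat.cast_nonneg _
  by_cases hr : alg.ans ω h M v = M.mulVec v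
  · by_cases hlen : (alg.adr ω h M v).length ≤ τ
    · rw [if_pos ⟨hr, hlen⟩, if_pos hr]
      linarith
    · rw [if_neg (fun hc => hlen hc.2), if_pos hr]
      have : (τ + 1 : ℝ) ≤ ((alg.adr ω h M v).length : ℝ) := by exact_mod_cast (by omega)
      linarith
  · rw [if_neg (fun hc => hr hc.1), if_neg hr]
    linarith

end OneL

open OneL

open Classical in
theorem one (cor : S_COR) (succ : S_SUCC) (virt : S_VIRT) (good : S_GOOD) : S_ONE := by
  intro p hpf hp2 n w Ω A alg D s e τ hPM hn ω h hh β hβ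
  have hp : p.Prime := hpf.out
  obtain ⟨G, B, f, hP⟩ := hPM ω h
  obtain ⟨mm, hmm, hPP⟩ := virt p n w A G B D s e (alg.mem ω h) f hP
  obtain ⟨b, hb⟩ : ∃ b : ℝ, b = 1 - 1 / lam p D := ⟨_, rfl⟩
  have hl1 := lam_pos hp.one_le D
  have hb0 : 0 ≤ b := by
    rw [hb, sub_nonneg, div_le_one (by linarith)]
    exact hl1
  have hb1 : b ≤ 1 := by
    rw [hb]
    have : 0 ≤ 1 / lam p D := by positivity
    linarith
  rw [← hb] at hβ
  have hcor : ∀ Q ∈ LD (ZMod p) (Fin n × Fin n) D, ∀ U : Finset (Fin n × Fin n),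
      ‖∑ x, chi U x * ZMod.stdAddChar (Q x)‖ ≤ 2 ^ (n * n) * b ^ U.card := by
    intro Q hQ U
    have := cor p hp2 (Fin n × Fin n) D Q hQ U
    rw [Fintype.card_prod, Fintype.card_fin, ← hb] at this
    exact this
  obtain ⟨K, hK⟩ : ∃ K : ℝ, K = 1 / 2 ^ (n / 8) + 2 ^ (n * h.length) *
      ((p : ℝ) ^ s) ^ τ * b ^ (n * n / 64) := ⟨_, rfl⟩
  have hK0 : 0 ≤ K := by rw [hK]; positivity
  rw [← hK] at hβ
  -- a good vector
  have hgood : ∀ v, Good B h v → ((Rv alg ω h τ v).card : ℝ) / 2 ^ (n * n) ≤ 2 ^ e * K := by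
    intro v hv
    rw [div_le_iff₀ (by positivity)]
    have h1 : Rv alg ω h τ v ⊆ (univ : Finset (Fin e → Bool)).biUnion (fun y =>
        univ.filter fun M : Mat n => (alg.prog ω h (h.map M.mulVec) v).out (mm y M) = M.mulVec v ∧
          ((alg.prog ω h (h.map M.mulVec) v).addrs (mm y M)).length ≤ τ) := by
      intro M hM
      unfold Rv at hM
      rw [Finset.mem_filter] at hM
      rw [Finset.mem_biUnion]
      refine ⟨f M, Finset.mem_univ _, ?_⟩
      rw [Finset.mem_filter, hmm M]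
      exact hM
    have h2 : ((Rv alg ω h τ v).card : ℝ) ≤ ∑ y : Fin e → Bool,
        ((univ.filter fun M : Mat n => (alg.prog ω h (h.map M.mulVec) v).out (mm y M) =
          M.mulVec v ∧ ((alg.prog ω h (h.map M.mulVec) v).addrs (mm y M)).length ≤ τ).card : ℝ) := by
      have := (Finset.card_le_card h1).trans Finset.card_biUnion_le
      exact_mod_cast this
    refine h2.trans ?_
    have h3 : ∀ y : Fin e → Bool, ((univ.filter fun M : Mat n =>
        (alg.prog ω h (h.map M.mulVec) v).out (mm y M) = M.mulVec v ∧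
          ((alg.prog ω h (h.map M.mulVec) v).addrs (mm y M)).length ≤ τ).card : ℝ) ≤
        2 ^ (n * n) * K := by
      intro y
      rw [hK]
      have := succ p n w A G B h v hv D s τ b hb0 hb1 hcor (mm y) (fun ys => alg.prog ω h ys v)
        (hPP y)
      refine le_trans (le_of_eq ?_) this
      congr 1
    refine (Finset.sum_le_sum fun y _ => h3 y).trans (le_of_eq ?_)
    rw [Finset.sum_const, Finset.card_univ, Fintype.card_fun, Fintype.card_bool, Fintype.card_fin,
      nsmul_eq_mul]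
    push_cast
    ring
  -- all vectors
  have hall : ∀ v, ((Rv alg ω h τ v).card : ℝ) / 2 ^ (n * n) ≤
      2 ^ e * K + (if ¬ Good B h v then 1 else 0) := by
    intro v
    by_cases hv : Good B h v
    · rw [if_neg (not_not.2 hv), add_zero]
      exact hgood v hv
    · rw [if_pos hv]
      have h1 : ((Rv alg ω h τ v).card : ℝ) / 2 ^ (n * n) ≤ 1 := by
        rw [div_le_one (by positivity), ← card_mat]
        exact_mod_cast Finset.card_le_univ _
      have : 0 ≤ 2 ^ e * K := by positivity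
      linarith
  have hτ : (0 : ℝ) ≤ τ := Nat.cast_nonneg τ
  have h5 : ∀ v, -((τ + 1 : ℝ) * (2 ^ e * K + (if ¬ Good B h v then 1 else 0))) ≤
      lenE alg ω h v - (τ + 1 : ℝ) * rightE alg ω h v := by
    intro v
    refine le_trans ?_ (diff_ge alg ω h τ v)
    apply neg_le_neg
    exact mul_le_mul_of_nonneg_left (hall v) (by linarith)
  refine le_trans ?_ (Finset.sum_le_sum fun v _ => h5 v)
  rw [Finset.sum_neg_distrib, ← Finset.mul_sum, Finset.sum_add_distrib, Finset.sum_const,
    Finset.card_univ, Fintype.card_fun, ZMod.card, Fintype.card_fin, nsmul_eq_mul]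
  have h6 : ∑ v : Vec n, (if ¬ Good B h v then (1 : ℝ) else 0) ≤ 2 ^ n * (1 / 2 ^ (n / 4)) := by
    rw [Finset.sum_boole, mul_one_div, le_div_iff₀ (by positivity)]
    have := good n B h hn hh
    exact_mod_cast this
  push_cast
  have h7 : (2 : ℝ) ^ n * (2 ^ e * K) + ∑ v : Vec n, (if ¬ Good B h v then (1 : ℝ) else 0) ≤
      2 ^ n * β := by
    have h8 : (2 : ℝ) ^ n * (1 / 2 ^ (n / 4) + 2 ^ e * K) ≤ 2 ^ n * β :=
      mul_le_mul_of_nonneg_left hβ (by positivity)
    linarith
  have h9 := mul_le_mul_of_nonneg_left h7 (show (0 : ℝ) ≤ τ + 1 by linarith)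
  linarith

end Pool.Agent.Helper89K9.MC
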