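import Pool.Agent.Helper89K9.MC.Stm

/-!
# Correlation of parity with polynomials of low degree modulo an odd prime
(Bourgain; Green, Roy and Straubing)
-/

set_option autoImplicit false
set_option linter.unusedSectionVars false

namespace Pool.Agent.Helper89K9.MC

open Finset
open H746R3.Inv (LD)

namespace CorL

variable {V : Type} [Fintype V] [DecidableEq V]

/-- the sign of a bit -/
noncomputable def sb (b : Bool) : ℂ := if b then -1 else 1

lemma sb_xor (a b : Bool) : sb (xor a b) = sb a * sb b := by
  cases a <;> cases b <;> simp [sb]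

lemma chi_eq (U : Finset V) (x : V → Bool) : chi U x = ∏ i ∈ U, sb (x i) := rfl

lemma sb_sq (b : Bool) : sb b ^ 2 = 1 := by cases b <;> simp [sb]

lemma chi_sq (U : Finset V) (x : V → Bool) : chi U x ^ 2 = 1 := by
  rw [chi_eq, ← Finset.prod_pow]
  exact Finset.prod_eq_one fun i _ => sb_sq _

lemma chi_odd (U : Finset V) (x : V → Bool) {p : ℕ} (hp : Odd p) : chi U x ^ p = chi U x := by
  obtain ⟨k, rfl⟩ := hp
  rw [pow_succ, pow_mul, chi_sq, one_pow, one_mul]

lemma norm_chi (U : Finset V) (x : V → Bool) : ‖chi U x‖ = 1 := by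
  have h := congrArg norm (chi_sq U x)
  rw [norm_pow, norm_one] at h
  exact (pow_eq_one_iff_of_nonneg (norm_nonneg _) (by norm_num)).1 h

lemma sum_chi (U : Finset V) (hU : U.Nonempty) : ∑ x : V → Bool, chi U x = 0 := by
  obtain ⟨i₀, hi₀⟩ := hU
  have h1 : ∀ x : V → Bool, chi U (Function.update x i₀ (!x i₀)) = - chi U x := by
    intro x
    rw [chi_eq, chi_eq, ← Finset.mul_prod_erase U _ hi₀, ← Finset.mul_prod_erase U (fun i => sb (x i)) hi₀]
    have h2 : ∏ i ∈ U.erase i₀, sb (Function.update x i₀ (!x i₀) i) = ∏ i ∈ U.erase i₀, sb (x i) := by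
      refine Finset.prod_congr rfl fun i hi => ?_
      rw [Function.update_of_ne (Finset.ne_of_mem_erase hi)]
    rw [h2, Function.update_self]
    rcases h : x i₀ with _ | _ <;> simp [sb]
  have h3 : ∑ x : V → Bool, chi U x = ∑ x : V → Bool, chi U (Function.update x i₀ (!x i₀)) := by
    refine (Fintype.sum_bijective (fun x : V → Bool => Function.update x i₀ (!x i₀)) ?_ _ _
      fun x => rfl).symm
    refine Function.Involutive.bijective fun x => ?_
    funext i
    by_cases hi : i = i₀
    · subst hi; simp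
    · simp [Function.update_of_ne hi]
  simp only [h1, Finset.sum_neg_distrib] at h3
  have h4 : (2 : ℂ) * ∑ x : V → Bool, chi U x = 0 := by linear_combination h3
  simpa using h4

lemma const_of_zero {p : ℕ} [Fact p.Prime] {Q : (V → Bool) → ZMod p} (hQ : Q ∈ LD (ZMod p) V 0) :
    ∃ c, ∀ x, Q x = c := by
  refine Submodule.span_induction (p := fun Q _ => ∃ c, ∀ x, Q x = c) ?_ ?_ ?_ ?_ hQ
  · rintro f ⟨B, hB, rfl⟩
    have hB0 : B = ∅ := Finset.card_eq_zero.1 (Nat.le_zero.1 hB)
    subst hB0
    exact ⟨1, fun x => by simp [H746R3.Inv.mono]⟩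
  · exact ⟨0, fun x => rfl⟩
  · rintro a b _ _ ⟨c, hc⟩ ⟨c', hc'⟩
    exact ⟨c + c', fun x => by rw [Pi.add_apply, hc, hc']⟩
  · rintro a b _ ⟨c, hc⟩
    exact ⟨a * c, fun x => by rw [Pi.smul_apply, hc, smul_eq_mul]⟩

lemma psi_sum {p : ℕ} [NeZero p] {ι : Type} (s : Finset ι) (a : ι → ZMod p) :
    ZMod.stdAddChar (N := p) (∑ j ∈ s, a j) = ∏ j ∈ s, ZMod.stdAddChar (a j) := by
  classical
  induction s using Finset.induction_on with
  | empty => simp
  | insert i s hi ih => rw [Finset.sum_insert hi, Finset.prod_insert hi, AddChar.map_add_eq_mul, ih]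

/-- the constant columns in `U` -/
def cc {p : ℕ} (U : Finset V) (x : Fin p → V → Bool) : Finset V :=
  U.filter (fun i => ∀ j k, x j i = x k i)

/-- change the constant columns -/
def act {p : ℕ} (U : Finset V) (z : V → Bool) (x : Fin p → V → Bool) : Fin p → V → Bool :=
  fun j i => if i ∈ cc U x then xor (x j i) (z i) else x j i

lemma cc_act {p : ℕ} (U : Finset V) (z : V → Bool) (x : Fin p → V → Bool) :
    cc U (act U z x) = cc U x := by
  ext i
  constructor
  · intro hi
    by_contra hcon
    unfold cc at hi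
    rw [Finset.mem_filter] at hi
    obtain ⟨h1, h2⟩ := hi
    apply hcon
    unfold cc
    rw [Finset.mem_filter]
    refine ⟨h1, fun j k => ?_⟩
    have := h2 j k
    unfold act at this
    rwa [if_neg hcon, if_neg hcon] at this
  · intro hi
    have hi' := hi
    unfold cc at hi ⊢
    rw [Finset.mem_filter] at hi ⊢
    refine ⟨hi.1, fun j k => ?_⟩
    unfold act
    rw [if_pos hi', if_pos hi', hi.2 j k]

lemma act_act {p : ℕ} (U : Finset V) (z : V → Bool) (x : Fin p → V → Bool) :
    act U z (act U z x) = x := by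
  funext j i
  show (if i ∈ cc U (act U z x) then xor (act U z x j i) (z i) else act U z x j i) = x j i
  rw [cc_act]
  by_cases hi : i ∈ cc U x
  · rw [if_pos hi]
    unfold act
    rw [if_pos hi]
    cases x j i <;> cases z i <;> rfl
  · rw [if_neg hi]
    unfold act
    rw [if_neg hi]

lemma chi_act {p : ℕ} (U : Finset V) (z : V → Bool) (x : Fin p → V → Bool) (j : Fin p) :
    chi U (act U z x j) = chi U (x j) * chi (cc U x) z := by
  have h1 : chi (cc U x) z = ∏ i ∈ U, (if i ∈ cc U x then sb (z i) else 1) := by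
    rw [chi_eq, Finset.prod_ite_mem]
    congr 1
    symm
    apply Finset.inter_eq_right.2
    exact Finset.filter_subset _ _
  rw [h1, chi_eq, chi_eq, ← Finset.prod_mul_distrib]
  refine Finset.prod_congr rfl fun i _ => ?_
  unfold act
  split_ifs with h
  · rw [sb_xor]
  · rw [mul_one]

end CorL

open CorL

theorem cor (drop : S_DROP) (cols : S_COLS) : S_COR := by
  intro p hpf hp2 V _ _ d
  have hp : p.Prime := hpf.out
  have hp3 : 3 ≤ p := by
    have := hp.two_le
    omega
  have hodd : Odd p := hp.odd_of_ne_two hp2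
  have hlam : ∀ e, 1 ≤ lam p e := by
    intro e
    unfold lam
    apply one_le_pow₀
    have h1 : (1 : ℝ) ≤ p := by exact_mod_cast hp.one_le
    have h2 : (1 : ℝ) ≤ 2 ^ (p - 1) := one_le_pow₀ (by norm_num)
    nlinarith
  induction d with
  | zero =>
    intro Q hQ U
    obtain ⟨c, hc⟩ := const_of_zero hQ
    simp only [hc]
    rw [← Finset.sum_mul, norm_mul]
    rcases U.eq_empty_or_nonempty with rfl | hU
    · rw [AddChar.norm_apply, mul_one, Finset.card_empty, pow_zero, mul_one]
      refine (norm_sum_le _ _).trans ?_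
      simp only [norm_chi]
      rw [Finset.sum_const, Finset.card_univ, nsmul_eq_mul, mul_one, Fintype.card_fun,
        Fintype.card_bool]
      push_cast
      rfl
    · rw [sum_chi U hU, norm_zero, zero_mul]
      have : lam p 0 = 1 := by unfold lam; simp
      rw [this]
      positivity
  | succ d ih =>
    intro Q hQ U
    obtain ⟨N, hN⟩ : ∃ N : ℝ, N = 2 ^ Fintype.card V := ⟨_, rfl⟩
    obtain ⟨β, hβ⟩ : ∃ β : ℝ, β = 1 - 1 / lam p d := ⟨_, rfl⟩
    obtain ⟨b, hb⟩ : ∃ b : ℝ, b = 1 - 1 / lam p (d + 1) := ⟨_, rfl⟩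
    have hN0 : 0 < N := by rw [hN]; positivity
    rw [← hN, ← hb]
    have hb0 : 0 ≤ b := by
      rw [hb, sub_nonneg, div_le_one (by linarith [hlam (d + 1)])]
      exact hlam _
    set F : (V → Bool) → ℂ := fun x => chi U x * ZMod.stdAddChar (Q x) with hF
    -- the inner sums
    have hin : ∀ x : Fin p → V → Bool, ‖∑ z : V → Bool, ∏ j, F (act U z x j)‖ ≤
        N * β ^ (cc U x).card := by
      intro x
      have h1 : ∀ z : V → Bool, ∏ j, F (act U z x j) = (∏ j, chi U (x j)) *
          (chi (cc U x) z * ZMod.stdAddChar (∑ j, Q (act U z x j))) := by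
        intro z
        rw [hF]
        simp only
        rw [Finset.prod_mul_distrib, psi_sum]
        simp only [chi_act]
        rw [Finset.prod_mul_distrib, Finset.prod_const, Finset.card_univ, Fintype.card_fin,
          chi_odd _ _ hodd]
        ring
      simp only [h1]
      rw [← Finset.mul_sum, norm_mul]
      have h2 : ‖∏ j, chi U (x j)‖ = 1 := by
        rw [norm_prod]
        exact Finset.prod_eq_one fun j _ => norm_chi _ _
      rw [h2, one_mul, hN, hβ]
      exact ih _ (drop p V d Q hQ x (cc U x) (fun i hi => (Finset.mem_filter.1 hi).2)) _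
    have hS : (∑ x, F x) ^ p = ∑ x : Fin p → V → Bool, ∏ j, F (x j) := Fintype.sum_pow _ _
    have hsym : ∀ z : V → Bool, ∑ x : Fin p → V → Bool, ∏ j, F (act U z x j) =
        ∑ x : Fin p → V → Bool, ∏ j, F (x j) := by
      intro z
      exact Fintype.sum_bijective (act U z) (Function.Involutive.bijective (act_act U z)) _ _
        fun x => rfl
    have hcard : (Fintype.card (V → Bool) : ℝ) = N := by
      rw [hN, Fintype.card_fun, Fintype.card_bool]
      push_cast
      rfl
    have h3 : (Fintype.card (V → Bool) : ℂ) * (∑ x, F x) ^ p =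
        ∑ x : Fin p → V → Bool, ∑ z : V → Bool, ∏ j, F (act U z x j) := by
      rw [Finset.sum_comm, Finset.sum_congr rfl fun z _ => hsym z, Finset.sum_const,
        Finset.card_univ, nsmul_eq_mul, hS]
    have h4 : N * ‖∑ x, F x‖ ^ p ≤ N * ∑ x : Fin p → V → Bool, β ^ (cc U x).card := by
      have h5 := congrArg norm h3
      rw [norm_mul, norm_pow, Complex.norm_natCast, hcard] at h5
      rw [h5, Finset.mul_sum]
      exact (norm_sum_le _ _).trans (Finset.sum_le_sum fun x _ => hin x)
    have h6 : ‖∑ x, F x‖ ^ p ≤ ((2 : ℝ) ^ p) ^ Fintype.card V *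
        (1 - (1 - β) / 2 ^ (p - 1)) ^ U.card := by
      rw [← cols p hp.one_le V U β]
      exact le_of_mul_le_mul_left h4 hN0
    have h7 : (1 - (1 - β) / 2 ^ (p - 1)) ≤ b ^ p := by
      have h8 := one_add_mul_le_pow (a := -(1 / lam p (d + 1))) (by
        have : 1 / lam p (d + 1) ≤ 1 := by
          rw [div_le_one (by linarith [hlam (d + 1)])]
          exact hlam _
        linarith) p
      have h9 : (1 + -(1 / lam p (d + 1))) = b := by rw [hb]; ring
      rw [h9] at h8
      refine le_trans (le_of_eq ?_) h8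
      rw [hβ]
      have h10 : lam p (d + 1) = lam p d * (p * 2 ^ (p - 1)) := by
        unfold lam
        rw [pow_succ]
      rw [h10]
      have h11 : lam p d ≠ 0 := by linarith [hlam d]
      have h12 : (p : ℝ) ≠ 0 := by
        have : (0 : ℝ) < p := by exact_mod_cast hp.pos
        linarith
      have h13 : (2 : ℝ) ^ (p - 1) ≠ 0 := by positivity
      field_simp
      ring
    have h14 : 0 ≤ 1 - (1 - β) / 2 ^ (p - 1) := by
      have h15 : (1 - β) ≤ 1 := by
        rw [hβ]
        have : 1 / lam p d ≤ 1 := by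
          rw [div_le_one (by linarith [hlam d])]
          exact hlam _
        linarith
      have h16 : (1 - β) / 2 ^ (p - 1) ≤ 1 := by
        rw [div_le_one (by positivity)]
        exact h15.trans (one_le_pow₀ (by norm_num))
      linarith
    have h17 : ‖∑ x, F x‖ ^ p ≤ (N * b ^ U.card) ^ p := by
      refine h6.trans ?_
      rw [mul_pow, hN, ← pow_mul, ← pow_mul, mul_comm p (Fintype.card V), ← pow_mul,
        mul_comm U.card p, pow_mul b]
      apply mul_le_mul_of_nonneg_left _ (by positivity)
      exact pow_le_pow_left₀ h14 h7 _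
    exact le_of_pow_le_pow_left₀ hp.ne_zero (by positivity) h17

end Pool.Agent.Helper89K9.MC
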