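import Pool.Agent.Helper89K9.MC.Stm

/-!
# The theorem, from the statements ONE, AVG and NUM
-/

set_option autoImplicit false

namespace Pool.Agent.Helper89K9.MC

open Finset
open Pool.Agent.TH163.AC2 (Alg coord toM gm lenE rightE mavg)
open Pool.Agent.H699R2.OMV (Prog Vec Mat IsProb before avg)

namespace FinL

lemma lam_pos {p : ℕ} (hp : 1 ≤ p) (d : ℕ) : 1 ≤ lam p d := by
  unfold lam
  apply one_le_pow₀
  have h1 : (1 : ℝ) ≤ p := by exact_mod_cast hp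
  have h2 : (1 : ℝ) ≤ 2 ^ (p - 1) := one_le_pow₀ (by norm_num)
  nlinarith

lemma right_of {n w : ℕ} {Ω A : Type} [Fintype Ω] (alg : Alg n Ω A w) (μ : Ω → ℝ) {γ : ℝ}
    (hs : alg.Solves μ γ ∨ alg.Right μ γ) : alg.Right μ γ := by
  rcases hs with hs | hs
  · intro q
    unfold Pool.Agent.H699R2.OMV.avg
    have hc : (0 : ℝ) < (Fintype.card (Mat n) : ℝ) * (Fintype.card (Fin n → Vec n) : ℝ) := by
      have h1 : (0 : ℝ) < (Fintype.card (Mat n) : ℝ) := by exact_mod_cast Fintype.card_pos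
      have h2 : (0 : ℝ) < (Fintype.card (Fin n → Vec n) : ℝ) := by
        exact_mod_cast Fintype.card_pos
      positivity
    rw [le_div_iff₀ hc]
    have h3 : ∑ M : Mat n, ∑ vs : Fin n → Vec n, γ ≤ ∑ M : Mat n, ∑ vs : Fin n → Vec n,
        ∑ ω, μ ω * (if alg.answer ω M vs q = M.mulVec (vs q) then (1 : ℝ) else 0) :=
      Finset.sum_le_sum fun M _ => Finset.sum_le_sum fun vs _ => hs M vs q
    refine le_trans (le_of_eq ?_) h3
    rw [Finset.sum_const, Finset.sum_const, Finset.card_univ, Finset.card_univ, nsmul_eq_mul,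
      nsmul_eq_mul]
    ring
  · exact hs

end FinL

open FinL

theorem fin (one : S_ONE) (av : S_AVG) (num : S_NUM) : S_FIN := by
  intro n p D s e hpf hp2 hs hn he Ω A _ w alg μ hμ γ hγ hPM hR
  have hp : p.Prime := hpf.out
  have hp3 : 3 ≤ p := by
    have := hp.two_le
    omega
  have hR' := right_of alg μ hR
  have hl1 := lam_pos hp.one_le D
  obtain ⟨l, hl⟩ : ∃ l : ℝ, l = lam p D := ⟨_, rfl⟩
  obtain ⟨N, hN⟩ : ∃ N : ℝ, N = (n : ℝ) := ⟨_, rfl⟩
  obtain ⟨L, hL⟩ : ∃ L : ℝ, L = s * Real.logb 2 p := ⟨_, rfl⟩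
  rw [← hl] at hl1 hn
  rw [← hN] at hn
  rw [← hl, ← hN, ← hL]
  have hN256 : (256 : ℝ) ≤ N := by linarith
  have hn256 : 256 ≤ n := by
    rw [hN] at hN256
    exact_mod_cast hN256
  have hlog : 1 ≤ Real.logb 2 p := by
    have h1 : Real.logb 2 2 = 1 := Real.logb_self_eq_one (by norm_num)
    rw [← h1]
    apply Real.logb_le_logb_of_le (by norm_num) (by norm_num)
    exact_mod_cast hp.two_le
  have hs1 : (1 : ℝ) ≤ s := by exact_mod_cast hs
  have hL1 : 1 ≤ L := by rw [hL]; nlinarith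
  have hγ0 : 0 < γ := lt_of_lt_of_le (by positivity) hγ
  obtain ⟨τ, hτ⟩ : ∃ τ : ℕ, τ = ⌊N ^ 2 / (256 * l * L)⌋₊ := ⟨_, rfl⟩
  obtain ⟨q, hq⟩ : ∃ q : ℕ, q = ⌊N / (256 * l)⌋₊ := ⟨_, rfl⟩
  have hq1 : (q : ℝ) ≤ N / (256 * l) := by
    rw [hq]
    exact Nat.floor_le (by positivity)
  have hq2 : N / (256 * l) ≤ q + 1 := by
    rw [hq]
    exact (Nat.lt_floor_add_one _).le
  have hτ1 : (τ : ℝ) ≤ N ^ 2 / (256 * l * L) := by
    rw [hτ]
    exact Nat.floor_le (by positivity)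
  have hτ2 : N ^ 2 / (256 * l * L) ≤ τ + 1 := by
    rw [hτ]
    exact (Nat.lt_floor_add_one _).le
  have hq3 : 256 * l * q ≤ N := by
    rw [le_div_iff₀ (by positivity)] at hq1
    linarith
  have hq4 : 256 * q ≤ n := by
    have h1 : (256 : ℝ) * q ≤ N := by
      have : (0 : ℝ) ≤ q := Nat.cast_nonneg q
      nlinarith
    rw [hN] at h1
    exact_mod_cast h1
  have hβ : ∀ k : ℕ, k ≤ q → 1 / 2 ^ (n / 4) + 2 ^ e * (1 / 2 ^ (n / 8) + 2 ^ (n * k) *
      ((p : ℝ) ^ s) ^ τ * (1 - 1 / lam p D) ^ (n * n / 64)) ≤ (1 / 2 ^ (n / 16) : ℝ) / 2 := by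
    intro k hk
    refine num n p D s e k τ hp3 (by rw [← hl, ← hN]; exact hn) he ?_ ?_
    · rw [← hl, ← hN]
      have : (k : ℝ) ≤ q := by exact_mod_cast hk
      have h2 : 256 * l * k ≤ 256 * l * q := mul_le_mul_of_nonneg_left this (by positivity)
      linarith
    · rw [← hl, ← hN, ← hL]
      rw [le_div_iff₀ (by positivity)] at hτ1
      linarith
  have hmain := av n w Ω A alg μ hμ γ hR' (q + 1) (by omega) (τ + 1 : ℝ)
    ((1 / 2 ^ (n / 16) : ℝ) / 2) (by positivity) (by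
      intro ω h hh
      exact one p hp2 n w Ω A alg D s e τ hPM hn256 ω h (by omega) _ (hβ h.length (by omega)))
  obtain ⟨T, hT⟩ : ∃ T : ℝ, T = avg (fun M vs => ∑ ω, μ ω *
      ∑ q, ((alg.probes ω M vs q).length : ℝ)) := ⟨_, rfl⟩
  rw [← hT] at hmain ⊢
  have h1 : γ / 2 ≤ γ - (1 / 2 ^ (n / 16) : ℝ) / 2 := by linarith
  have h2 : N ^ 2 / (256 * l * L) * (γ / 2) ≤ (τ + 1 : ℝ) * (γ - (1 / 2 ^ (n / 16) : ℝ) / 2) :=
    mul_le_mul hτ2 h1 (by positivity) (by positivity)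
  have h3 : N / (256 * l) * (N ^ 2 / (256 * l * L) * (γ / 2)) ≤
      ((q + 1 : ℕ) : ℝ) * ((τ + 1 : ℝ) * (γ - (1 / 2 ^ (n / 16) : ℝ) / 2)) := by
    push_cast
    exact mul_le_mul hq2 h2 (by positivity) (by positivity)
  have h4 := h3.trans hmain
  have h5 : N / (256 * l) * (N ^ 2 / (256 * l * L) * (γ / 2)) =
      γ * N ^ 3 / (2 ^ 17 * l ^ 2 * L) := by
    field_simp
    ring
  rw [h5, div_le_iff₀ (by positivity)] at h4
  linarith

end Pool.Agent.Helper89K9.MC
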