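import Pool.Agent.Helper89K9.MC.Stm

/-!
# Project MC, version 2: the memory may depend arbitrarily on all earlier answers
-/

set_option autoImplicit false

namespace Pool.Agent.Helper89K9.MC

open Finset
open H746R3.Inv (LD)
open Pool.Agent.TH163.AC2 (Alg coord toM gm lenE rightE mavg)
open Pool.Agent.H699R2.OMV (Prog Vec Mat IsProb before avg)

/-- For given coins, earlier vectors `h` and earlier answers `ys` there are coordinates (invertible
matrices `G` and `B r`) and `e` arbitrary bits `f M` of side information about the matrix such that,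
for each value `y` of the side information and each cell, there are `s` polynomials over the field
with `p` elements, of degree at most `D`, in the `n * n` bits of the matrix, whose values determine
the content of the cell, on all matrices with these answers and this side information. -/
def PolyMemY {n : ℕ} {Ω A : Type} {w : ℕ} (p : ℕ) (alg : Alg n Ω A w) (D s e : ℕ) : Prop :=
  ∀ (ω : Ω) (h ys : List (Vec n)), ∃ (G : (Mat n)ˣ) (B : Fin n → (Mat n)ˣ)
    (f : Mat n → Fin e → Bool), ∀ (a : A) (y : Fin e → Bool),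
    ∃ P : Fin s → MvPolynomial (Fin n × Fin n) (ZMod p), (∀ j, (P j).totalDegree ≤ D) ∧
      ∀ M M' : Mat n, h.map M.mulVec = ys → h.map M'.mulVec = ys → f M = y → f M' = y →
        (∀ j, MvPolynomial.eval (fun c => if coord G B M c then (1 : ZMod p) else 0) (P j) =
          MvPolynomial.eval (fun c => if coord G B M' c then (1 : ZMod p) else 0) (P j)) →
        alg.mem ω h M a = alg.mem ω h M' a

open Classical in
/-- **SUCY.** (`Helper41K9.MC.succ` for given earlier answers.) -/
def S_SUCY : Prop :=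
  ∀ (p : ℕ) [Fact p.Prime] (n w : ℕ) (A : Type) (G : (Mat n)ˣ) (B : Fin n → (Mat n)ˣ)
    (h : List (Vec n)) (v : Vec n), Good B h v → ∀ (ys : List (Vec n)),
    ∀ (D s τ : ℕ) (b : ℝ), 0 ≤ b → b ≤ 1 →
    (∀ Q ∈ LD (ZMod p) (Fin n × Fin n) D, ∀ U : Finset (Fin n × Fin n),
      ‖∑ x, chi U x * ZMod.stdAddChar (Q x)‖ ≤ 2 ^ (n * n) * b ^ U.card) →
    ∀ (m : Mat n → A → Fin w → Bool) (T : Prog A (Fin w → Bool) (Vec n)),
    (∀ a, ∃ P : Fin s → (Fin n × Fin n → Bool) → ZMod p,
      (∀ j, P j ∈ LD (ZMod p) (Fin n × Fin n) D) ∧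
      ∀ x x', (∀ j, P j x = P j x') → m (toM G B x) a = m (toM G B x') a) →
    ((univ.filter fun M : Mat n => h.map M.mulVec = ys ∧ T.out (m M) = M.mulVec v ∧
      (T.addrs (m M)).length ≤ τ).card : ℝ) ≤
      (univ.filter fun M : Mat n => h.map M.mulVec = ys).card / 2 ^ (n / 8) +
        2 ^ (n * n) * (((p : ℝ) ^ s) ^ τ * b ^ (n * n / 64))

/-- **ONEY.** For given coins and earlier vectors, averaged over the next vector. -/
def S_ONEY : Prop :=
  ∀ (p : ℕ) [Fact p.Prime], p ≠ 2 → ∀ (n w : ℕ) (Ω A : Type) (alg : Alg n Ω A w) (D s e τ : ℕ),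
    PolyMemY p alg D s e → 256 ≤ n → ∀ (ω : Ω) (h : List (Vec n)), 256 * h.length ≤ n →
    ∀ β : ℝ, 1 / 2 ^ (n / 4) + 2 ^ e * (1 / 2 ^ (n / 8) + 2 ^ (n * h.length) *
      ((p : ℝ) ^ s) ^ τ * (1 - 1 / lam p D) ^ (n * n / 64)) ≤ β →
    (2 : ℝ) ^ n * (-((τ + 1 : ℝ) * β)) ≤
      ∑ v, (lenE alg ω h v - (τ + 1 : ℝ) * rightE alg ω h v)

end Pool.Agent.Helper89K9.MC
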