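import Pool.Agent.TH163.AC4.Core
import Pool.Agent.H746R3.Inv.Deg

/-!
# Project MC: online matrix-vector multiplication with memory of low degree modulo an odd prime

Statements of the leaves. `LD (ZMod p) V d` are the functions of degree at most `d` on the cube.
-/

set_option autoImplicit false

namespace Pool.Agent.Helper89K9.MC

open Finset
open H746R3.Inv (LD)
open Pool.Agent.TH163.AC2 (Alg coord toM gm lenE rightE mavg)
open Pool.Agent.H699R2.OMV (Prog Vec Mat IsProb before avg)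

/-- For given coins and earlier vectors there are coordinates (invertible matrices `G` and `B r`) and
`e` arbitrary bits `f M` of side information about the matrix such that, for each value `y` of the
side information and each cell, there are `s` polynomials over the field with `p` elements, of
degree at most `D`, in the `n * n` bits of the matrix, whose values determine the content of
the cell, on all matrices with this side information. -/
def PolyMem {n : ℕ} {Ω A : Type} {w : ℕ} (p : ℕ) (alg : Alg n Ω A w) (D s e : ℕ) : Prop :=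
  ∀ (ω : Ω) (h : List (Vec n)), ∃ (G : (Mat n)ˣ) (B : Fin n → (Mat n)ˣ)
    (f : Mat n → Fin e → Bool), ∀ (a : A) (y : Fin e → Bool),
    ∃ P : Fin s → MvPolynomial (Fin n × Fin n) (ZMod p), (∀ j, (P j).totalDegree ≤ D) ∧
      ∀ M M' : Mat n, f M = y → f M' = y →
        (∀ j, MvPolynomial.eval (fun c => if coord G B M c then (1 : ZMod p) else 0) (P j) =
          MvPolynomial.eval (fun c => if coord G B M' c then (1 : ZMod p) else 0) (P j)) →
        alg.mem ω h M a = alg.mem ω h M' a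

/-- the parity character of the set `U` of coordinates -/
noncomputable def chi {V : Type} (U : Finset V) (x : V → Bool) : ℂ :=
  ∏ i ∈ U, if x i then -1 else 1

/-- the sign of the sum of the coordinates in `S` of a vector over `ZMod 2` -/
noncomputable def sgn {n : ℕ} (S : Finset (Fin n)) (z : Vec n) : ℂ :=
  ∏ r ∈ S, if z r = 0 then 1 else -1

/-- `Λ = (p 2 ^ (p - 1)) ^ d` -/
noncomputable def lam (p d : ℕ) : ℝ := ((p : ℝ) * 2 ^ (p - 1)) ^ d

/-- the number of nonzero coordinates -/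
def wt {n : ℕ} (z : Vec n) : ℕ := (univ.filter fun j => z j ≠ 0).card

/-- all vectors `v + ∑ c i • h i` have weight at least `n / 16` in the coordinates of every row -/
def Good {n : ℕ} (B : Fin n → (Mat n)ˣ) (h : List (Vec n)) (v : Vec n) : Prop :=
  ∀ (r : Fin n) (c : Fin h.length → ZMod 2),
    n ≤ 16 * wt ((↑(B r)⁻¹ : Mat n).mulVec (v + ∑ i, c i • h.get i))

/-! ### correlation of parity with polynomials modulo `p` -/

/-- **DROP.** The sum of a polynomial of degree `d + 1` over `p` points which agree in the coordinates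
in `I`, as a function of the common values of these coordinates, has degree at most `d`. -/
def S_DROP : Prop :=
  ∀ (p : ℕ) [Fact p.Prime] (V : Type) [Fintype V] [DecidableEq V] (d : ℕ)
    (Q : (V → Bool) → ZMod p), Q ∈ LD (ZMod p) V (d + 1) →
    ∀ (x : Fin p → V → Bool) (I : Finset V), (∀ i ∈ I, ∀ j k, x j i = x k i) →
    (fun z : V → Bool => ∑ j, Q (fun i => if i ∈ I then xor (x j i) (z i) else x j i)) ∈
      LD (ZMod p) V d

/-- **COLS.** -/
def S_COLS : Prop :=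
  ∀ (p : ℕ), 1 ≤ p → ∀ (V : Type) [Fintype V] [DecidableEq V] (U : Finset V) (β : ℝ),
    ∑ x : Fin p → V → Bool, β ^ (U.filter (fun i => ∀ j k, x j i = x k i)).card =
      ((2 : ℝ) ^ p) ^ Fintype.card V * (1 - (1 - β) / 2 ^ (p - 1)) ^ U.card

/-- **COR** (Bourgain; Green, Roy and Straubing). -/
def S_COR : Prop :=
  ∀ (p : ℕ) [Fact p.Prime], p ≠ 2 → ∀ (V : Type) [Fintype V] [DecidableEq V] (d : ℕ)
    (Q : (V → Bool) → ZMod p), Q ∈ LD (ZMod p) V d → ∀ U : Finset V,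
    ‖∑ x, chi U x * ZMod.stdAddChar (Q x)‖ ≤
      2 ^ Fintype.card V * (1 - 1 / lam p d) ^ U.card

/-! ### decision trees -/

/-- **TREE.** A program of `τ` probes to cells, whose contents are determined by `s` functions in the
space `L`, does not help against a weight `φ` which is uncorrelated with the space `L`. -/
def S_TREE : Prop :=
  ∀ (p : ℕ) [Fact p.Prime] (X A W O : Type) [Fintype X] (L : Submodule (ZMod p) (X → ZMod p))
    (s : ℕ) (m : X → A → W)
    (_ : ∀ a, ∃ P : Fin s → X → ZMod p, (∀ j, P j ∈ L) ∧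
      ∀ x x', (∀ j, P j x = P j x') → m x a = m x' a)
    (g : O → ℂ) (_ : ∀ o, ‖g o‖ ≤ 1) (B : ℝ) (T : Prog A W O) (τ : ℕ) (φ : X → ℂ)
    (_ : ∀ Q ∈ L, ‖∑ x, φ x * ZMod.stdAddChar (Q x)‖ ≤ B),
    ‖∑ x, (if (T.addrs (m x)).length ≤ τ then φ x * g (T.out (m x)) else 0)‖ ≤
      ((p : ℝ) ^ s) ^ τ * B

/-! ### the earlier answers, the tail, the good vectors -/

/-- **HIST.** -/
def S_HIST : Prop :=
  ∀ (p : ℕ) [Fact p.Prime] (n : ℕ) (G : (Mat n)ˣ) (B : Fin n → (Mat n)ˣ) (h : List (Vec n))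
    (v : Vec n), Good B h v → ∀ (S : Finset (Fin n)) (y : List (Vec n)) (D : ℕ) (b : ℝ),
    0 ≤ b → b ≤ 1 →
    (∀ Q ∈ LD (ZMod p) (Fin n × Fin n) D, ∀ U : Finset (Fin n × Fin n),
      ‖∑ x, chi U x * ZMod.stdAddChar (Q x)‖ ≤ 2 ^ (n * n) * b ^ U.card) →
    ∀ k : ℕ, 16 * k ≤ n * S.card → ∀ Q ∈ LD (ZMod p) (Fin n × Fin n) D,
      ‖∑ x, (if h.map (toM G B x).mulVec = y then sgn S (gm B x v) else 0) *
        ZMod.stdAddChar (Q x)‖ ≤ 2 ^ (n * n) * b ^ k

/-- **TAIL.** -/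
def S_TAIL : Prop :=
  ∀ n : ℕ, (univ.filter fun S : Finset (Fin n) => 4 * S.card < n).card * 2 ^ (n / 8) ≤ 2 ^ n

open Classical in
/-- **GOOD.** -/
def S_GOOD : Prop :=
  ∀ (n : ℕ) (B : Fin n → (Mat n)ˣ) (h : List (Vec n)), 256 ≤ n → 256 * h.length ≤ n →
    (univ.filter fun v : Vec n => ¬ Good B h v).card * 2 ^ (n / 4) ≤ 2 ^ n

/-! ### probability of success -/

/-- **SUCC.** The number of the matrices for which the answer is right and at most `τ` cells
are probed. -/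
def S_SUCC : Prop :=
  ∀ (p : ℕ) [Fact p.Prime] (n w : ℕ) (A : Type) (G : (Mat n)ˣ) (B : Fin n → (Mat n)ˣ)
    (h : List (Vec n)) (v : Vec n), Good B h v →
    ∀ (D s τ : ℕ) (b : ℝ), 0 ≤ b → b ≤ 1 →
    (∀ Q ∈ LD (ZMod p) (Fin n × Fin n) D, ∀ U : Finset (Fin n × Fin n),
      ‖∑ x, chi U x * ZMod.stdAddChar (Q x)‖ ≤ 2 ^ (n * n) * b ^ U.card) →
    ∀ (m : Mat n → A → Fin w → Bool) (T : List (Vec n) → Prog A (Fin w → Bool) (Vec n)),
    (∀ a, ∃ P : Fin s → (Fin n × Fin n → Bool) → ZMod p,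
      (∀ j, P j ∈ LD (ZMod p) (Fin n × Fin n) D) ∧
      ∀ x x', (∀ j, P j x = P j x') → m (toM G B x) a = m (toM G B x') a) →
    ((univ.filter fun M : Mat n => (T (h.map M.mulVec)).out (m M) = M.mulVec v ∧
      ((T (h.map M.mulVec)).addrs (m M)).length ≤ τ).card : ℝ) ≤
      2 ^ (n * n) * (1 / 2 ^ (n / 8) +
        2 ^ (n * h.length) * ((p : ℝ) ^ s) ^ τ * b ^ (n * n / 64))

/-- **VIRT.** The memory for each value of the side information. -/
def S_VIRT : Prop :=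
  ∀ (p : ℕ) [Fact p.Prime] (n w : ℕ) (A : Type) (G : (Mat n)ˣ) (B : Fin n → (Mat n)ˣ)
    (D s e : ℕ) (m : Mat n → A → Fin w → Bool) (f : Mat n → Fin e → Bool),
    (∀ (a : A) (y : Fin e → Bool),
      ∃ P : Fin s → MvPolynomial (Fin n × Fin n) (ZMod p), (∀ j, (P j).totalDegree ≤ D) ∧
      ∀ M M' : Mat n, f M = y → f M' = y →
        (∀ j, MvPolynomial.eval (fun c => if coord G B M c then (1 : ZMod p) else 0) (P j) =
          MvPolynomial.eval (fun c => if coord G B M' c then (1 : ZMod p) else 0) (P j)) →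
        m M a = m M' a) →
    ∃ mm : (Fin e → Bool) → Mat n → A → Fin w → Bool, (∀ M, mm (f M) M = m M) ∧
      ∀ y a, ∃ P : Fin s → (Fin n × Fin n → Bool) → ZMod p,
        (∀ j, P j ∈ LD (ZMod p) (Fin n × Fin n) D) ∧
        ∀ x x', (∀ j, P j x = P j x') → mm y (toM G B x) a = mm y (toM G B x') a

/-- **ONE.** For given coins and earlier vectors, averaged over the next vector. -/
def S_ONE : Prop :=
  ∀ (p : ℕ) [Fact p.Prime], p ≠ 2 → ∀ (n w : ℕ) (Ω A : Type) (alg : Alg n Ω A w) (D s e τ : ℕ),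
    PolyMem p alg D s e → 256 ≤ n → ∀ (ω : Ω) (h : List (Vec n)), 256 * h.length ≤ n →
    ∀ β : ℝ, 1 / 2 ^ (n / 4) + 2 ^ e * (1 / 2 ^ (n / 8) + 2 ^ (n * h.length) *
      ((p : ℝ) ^ s) ^ τ * (1 - 1 / lam p D) ^ (n * n / 64)) ≤ β →
    (2 : ℝ) ^ n * (-((τ + 1 : ℝ) * β)) ≤
      ∑ v, (lenE alg ω h v - (τ + 1 : ℝ) * rightE alg ω h v)

/-- **AVG.** The average over the stream. -/
def S_AVG : Prop :=
  ∀ (n w : ℕ) (Ω A : Type) [Fintype Ω] (alg : Alg n Ω A w) (μ : Ω → ℝ), IsProb μ →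
    ∀ γ : ℝ, alg.Right μ γ → ∀ (Q : ℕ), Q ≤ n → ∀ P β : ℝ, 0 ≤ P →
    (∀ (ω : Ω) (h : List (Vec n)), h.length < Q →
      (2 : ℝ) ^ n * (-(P * β)) ≤ ∑ v, (lenE alg ω h v - P * rightE alg ω h v)) →
    Q * (P * (γ - β)) ≤ avg (fun M vs => ∑ ω, μ ω * ∑ q, ((alg.probes ω M vs q).length : ℝ))

/-- **NUM.** The choice of the parameters. -/
def S_NUM : Prop :=
  ∀ (n p D s e l τ : ℕ), 3 ≤ p → 256 * lam p D ≤ n → 32 * e ≤ n → 256 * lam p D * l ≤ n →
    256 * lam p D * (s * Real.logb 2 p * τ) ≤ (n : ℝ) ^ 2 →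
    1 / 2 ^ (n / 4) + 2 ^ e * (1 / 2 ^ (n / 8) + 2 ^ (n * l) *
      ((p : ℝ) ^ s) ^ τ * (1 - 1 / lam p D) ^ (n * n / 64)) ≤ (1 / 2 ^ (n / 16) : ℝ) / 2

/-- **FIN.** The theorem. -/
def S_FIN : Prop :=
  ∀ (n p D s e : ℕ) [Fact p.Prime], p ≠ 2 → 1 ≤ s → 256 * lam p D ≤ n → 32 * e ≤ n →
    ∀ (Ω A : Type) [Fintype Ω] (w : ℕ) (alg : Alg n Ω A w) (μ : Ω → ℝ), IsProb μ →
    ∀ γ : ℝ, 1 / (2 : ℝ) ^ (n / 16) ≤ γ → PolyMem p alg D s e →
    (alg.Solves μ γ ∨ alg.Right μ γ) →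
    γ * (n : ℝ) ^ 3 ≤ 2 ^ 17 * lam p D ^ 2 * (s * Real.logb 2 p) *
      avg (fun M vs => ∑ ω, μ ω * ∑ q, ((alg.probes ω M vs q).length : ℝ))

end Pool.Agent.Helper89K9.MC
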